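import Mathlib

/-!
# Kleene's O, the iterated computable FS-jump and hyperarithmetic sets
-/

namespace Pool.Agent.R575.HY

open Nat.Partrec (Code)

/-- the `e`-th partial computable function -/
def phi (e : ℕ) : ℕ →. ℕ := (Denumerable.ofNat Code e).eval

/-- the relation generating the order of Kleene's O: `a < 2 ^ a` and `φ_e(n) < 3 * 5 ^ e` -/
inductive Step : ℕ → ℕ → Prop
  | succ (a : ℕ) : 0 < a → Step a (2 ^ a)
  | lim (e n a : ℕ) : a ∈ phi e n → Step a (3 * 5 ^ e)

/-- the order of Kleene's O, the transitive closure of `Step` -/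
def LtO : ℕ → ℕ → Prop := Relation.TransGen Step

/-- `Ntn a` is the type of derivations that `a` belongs to Kleene's O -/
inductive Ntn : ℕ → Type
  | zero : Ntn 1
  | succ {a : ℕ} (p : Ntn a) : Ntn (2 ^ a)
  | lim (e : ℕ) (f : ℕ → ℕ) (hf : ∀ n, f n ∈ phi e n)
      (mono : ∀ n, LtO (f n) (f (n + 1))) (p : ∀ n, Ntn (f n)) : Ntn (3 * 5 ^ e)

/-- the computable FS-jump: `e` and `e'` are related when the sets of `E`-classes
`{[φ_e(n)] : φ_e(n) defined}` and `{[φ_e'(n)] : φ_e'(n) defined}` are equal -/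
def FSJump (E : ℕ → ℕ → Prop) (e e' : ℕ) : Prop :=
  {C : Set ℕ | ∃ n, ∃ x ∈ phi e n, C = {y | E x y}} =
    {C : Set ℕ | ∃ n, ∃ x ∈ phi e' n, C = {y | E x y}}

/-- the iterate `E^{+a}` of the FS-jump along a notation `a` -/
def FS (E : ℕ → ℕ → Prop) : {a : ℕ} → Ntn a → ℕ → ℕ → Prop
  | _, .zero => E
  | _, .succ p => FSJump (FS E p)
  | _, .lim _ _ _ _ p => fun z w =>
      z.unpair.1 = w.unpair.1 ∧ FS E (p z.unpair.1) z.unpair.2 w.unpair.2

/-- the number `u` codes an initial segment of the characteristic function of `X`: with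
`u = ⟨k, s⟩`, for every `i < k` the `i`-th binary digit of `s` is `1` iff `i ∈ X` -/
def Agree (X : Set ℕ) (u : ℕ) : Prop :=
  ∀ i < u.unpair.1, (u.unpair.2.testBit i = true ↔ i ∈ X)

/-- the Turing jump of `X`: the `n` such that the `n`-th oracle computation with oracle `X` halts
on input `n`, where the `n`-th oracle computation on input `m` halts when `φ_n(⟨m, u⟩)` is defined
for some code `u` of an initial segment of the oracle -/
def Jump (X : Set ℕ) : Set ℕ :=
  {n | ∃ u, Agree X u ∧ (phi n (Nat.pair n u)).Dom}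

/-- the sets `H_a` of the hyperarithmetic hierarchy -/
def H : {a : ℕ} → Ntn a → Set ℕ
  | _, .zero => ∅
  | _, .succ p => Jump (H p)
  | _, .lim _ _ _ _ p => {z | z.unpair.2 ∈ H (p z.unpair.1)}

open Classical in
/-- the characteristic function of a set -/
noncomputable def chi (X : Set ℕ) : ℕ →. ℕ := fun n => Part.some (if n ∈ X then 1 else 0)

/-- a set is hyperarithmetic if it is Turing reducible to `H_a` for some notation `a` -/
def Hyperarithmetic (X : Set ℕ) : Prop :=
  ∃ (a : ℕ) (p : Ntn a), TuringReducible (chi X) (chi (H p))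

/-- computable reducibility of relations on the natural numbers -/
def CRed (E F : ℕ → ℕ → Prop) : Prop :=
  ∃ f : ℕ → ℕ, Computable f ∧ ∀ n m, E n m ↔ F (f n) (f m)

end Pool.Agent.R575.HY
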