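import Mathlib
import Pool.Agent.R575.HY.Defs

/-!
# Indices
-/

namespace Pool.Agent.R575.HY

open Nat.Partrec (Code)

/-- the s-m-n index -/
def ix (c : Code) (p : ℕ) : ℕ := Encodable.encode (Code.curry c p)

theorem phi_ix (c : Code) (p n : ℕ) : phi (ix c p) n = c.eval (Nat.pair p n) := by
  simp [phi, ix, Code.eval_curry]

theorem ix_computable (c : Code) : Computable (ix c) :=
  (Primrec.encode.comp (Code.primrec₂_curry.comp (Primrec.const c) Primrec.id)).to_comp

theorem phi_partrec : Partrec₂ phi :=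
  Code.eval_part.comp ((Computable.ofNat Code).comp Computable.fst) Computable.snd

/-- the value of the partial function `φ_κ` at `⟨a, q⟩` -/
def V (κ a q : ℕ) : Part ℕ := phi κ (Nat.pair a q)

theorem primrec_pow : Primrec₂ (fun a b : ℕ => a ^ b) := Primrec₂.unpaired'.1 Nat.Primrec.pow

theorem primrec_testBit : Primrec₂ (fun s i : ℕ => s.testBit i) := by
  have h : Primrec₂ (fun s i : ℕ => (s / 2 ^ i % 2 == 1)) :=
    Primrec.beq.comp (Primrec.nat_mod.comp (Primrec.nat_div.comp Primrec.fst
        (primrec_pow.comp (Primrec.const 2) Primrec.snd)) (Primrec.const 2)) (Primrec.const 1)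
  refine h.of_eq (fun s i => ?_)
  rw [Nat.testBit_eq_decide_div_mod_eq]
  rfl

/-- first and second component -/
def a1 (n : ℕ) : ℕ := n.unpair.1
/-- second component -/
def a2 (n : ℕ) : ℕ := n.unpair.2

theorem a1_pair (m n : ℕ) : a1 (Nat.pair m n) = m := by simp [a1]
theorem a2_pair (m n : ℕ) : a2 (Nat.pair m n) = n := by simp [a2]

theorem p1 : Primrec a1 := Primrec.fst.comp Primrec.unpair
theorem p2 : Primrec a2 := Primrec.snd.comp Primrec.unpair
theorem k1 : Computable a1 := p1.to_comp
theorem k2 : Computable a2 := p2.to_comp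

theorem kpair {α : Type} [Primcodable α] {f g : α → ℕ} (hf : Computable f) (hg : Computable g) :
    Computable (fun x => Nat.pair (f x) (g x)) :=
  Primrec₂.natPair.to_comp.comp hf hg

/-- is the literal `l` one of the literals of `u` -/
def inl (u l : ℕ) : Bool :=
  decide (l / 2 < a1 u) && ((a2 u).testBit (l / 2) == (l % 2 == 1))

/-- the query for the tag `r`, item `n`, kind `k` -/
def qq (n r k : ℕ) : ℕ := Nat.pair (Nat.pair n r) k + 1

/-- the kind -/
def kk (t w l : ℕ) : ℕ :=
  bif t == 0 then (bif w.testBit l then 1 + l % 2 else 2 - l % 2)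
  else (bif inl w l then 0 else 2 - l % 2)

/-- the query at level one -/
def sel (t ρ w l : ℕ) : ℕ := qq (l / 2) (Nat.pair ρ (l % 2)) (kk t w l)

theorem inl_primrec : Primrec₂ inl := by
  have h1 : Primrec (fun p : ℕ × ℕ => decide (p.2 / 2 < a1 p.1)) :=
    (Primrec.nat_lt.comp (Primrec.nat_div.comp Primrec.snd (Primrec.const 2))
      (p1.comp Primrec.fst)).decide
  have h2 : Primrec (fun p : ℕ × ℕ => (a2 p.1).testBit (p.2 / 2)) :=
    primrec_testBit.comp (p2.comp Primrec.fst) (Primrec.nat_div.comp Primrec.snd (Primrec.const 2))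
  have h3 : Primrec (fun p : ℕ × ℕ => (p.2 % 2 == 1)) :=
    Primrec.beq.comp (Primrec.nat_mod.comp Primrec.snd (Primrec.const 2)) (Primrec.const 1)
  exact Primrec.and.comp h1 (Primrec.beq.comp h2 h3)

theorem qq_primrec {α : Type} [Primcodable α] {f g h : α → ℕ} (hf : Primrec f) (hg : Primrec g)
    (hh : Primrec h) : Primrec (fun x => qq (f x) (g x) (h x)) :=
  Primrec.succ.comp (Primrec₂.natPair.comp (Primrec₂.natPair.comp hf hg) hh)

theorem kk_primrec {α : Type} [Primcodable α] {t w l : α → ℕ} (ht : Primrec t) (hw : Primrec w)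
    (hl : Primrec l) : Primrec (fun x => kk (t x) (w x) (l x)) := by
  have hm : Primrec (fun x => l x % 2) := Primrec.nat_mod.comp hl (Primrec.const 2)
  have ha : Primrec (fun x => 1 + l x % 2) := Primrec.nat_add.comp (Primrec.const 1) hm
  have hb : Primrec (fun x => 2 - l x % 2) := Primrec.nat_sub.comp (Primrec.const 2) hm
  exact Primrec.cond (Primrec.beq.comp ht (Primrec.const 0))
    (Primrec.cond (primrec_testBit.comp hw hl) ha hb)
    (Primrec.cond (inl_primrec.comp hw hl) (Primrec.const 0) hb)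

theorem sel_primrec {α : Type} [Primcodable α] {t ρ w l : α → ℕ} (ht : Primrec t)
    (hρ : Primrec ρ) (hw : Primrec w) (hl : Primrec l) :
    Primrec (fun x => sel (t x) (ρ x) (w x) (l x)) :=
  qq_primrec (Primrec.nat_div.comp hl (Primrec.const 2))
    (Primrec₂.natPair.comp hρ (Primrec.nat_mod.comp hl (Primrec.const 2)))
    (kk_primrec ht hw hl)

theorem V_partrec {α : Type} [Primcodable α] {f g h : α → ℕ} (hf : Computable f)
    (hg : Computable g) (hh : Computable h) : Partrec (fun x => V (f x) (g x) (h x)) :=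
  phi_partrec.comp hf (kpair hg hh)

/-- level one -/
def F1 (N : ℕ) : Part ℕ :=
  V (a1 (a1 (a1 N))) (a2 (a1 (a1 N)))
    (sel (a1 (a2 (a1 N))) (a1 (a2 (a2 (a1 N)))) (a2 (a2 (a2 (a1 N)))) (a2 N))

theorem F1_partrec : Nat.Partrec F1 := by
  apply Partrec.nat_iff.1
  exact V_partrec (k1.comp (k1.comp k1)) (k2.comp (k1.comp k1))
    (sel_primrec (p1.comp (p2.comp p1)) (p1.comp (p2.comp (p2.comp p1)))
      (p2.comp (p2.comp (p2.comp p1))) p2).to_comp

/-- code for level one -/
noncomputable def c1 : Code := Classical.choose (Code.exists_code.1 F1_partrec)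

theorem c1_eval : c1.eval = F1 := Classical.choose_spec (Code.exists_code.1 F1_partrec)

/-- index at level one -/
noncomputable def i1 (κ a t ρ w : ℕ) : ℕ :=
  ix c1 (Nat.pair (Nat.pair κ a) (Nat.pair t (Nat.pair ρ w)))

theorem phi_i1 (κ a t ρ w l : ℕ) : phi (i1 κ a t ρ w) l = V κ a (sel t ρ w l) := by
  simp [i1, phi_ix, c1_eval, F1, a1_pair, a2_pair]

theorem i1_computable {α : Type} [Primcodable α] {κ a t ρ w : α → ℕ} (hκ : Computable κ)
    (ha : Computable a) (ht : Computable t) (hρ : Computable ρ) (hw : Computable w) :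
    Computable (fun x => i1 (κ x) (a x) (t x) (ρ x) (w x)) :=
  (ix_computable c1).comp (kpair (kpair hκ ha) (kpair ht (kpair hρ hw)))

/-- level two, the family with a truth value -/
noncomputable def F2 (N : ℕ) : Part ℕ :=
  bif (a2 N % 2 == 0) then
    (phi (a1 (a1 (a2 (a1 N)))) (Nat.pair (a2 (a1 (a2 (a1 N)))) (a2 N / 2))).map
      (fun _ => i1 (a1 (a1 (a1 N))) (a2 (a1 (a1 N))) 1 (a2 (a2 (a1 N))) (a2 N / 2))
  else
    Part.some (i1 (a1 (a1 (a1 N))) (a2 (a1 (a1 N))) 0 (a2 (a2 (a1 N))) (a2 N / 2 + 1))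

theorem half_comp : Computable (fun N => a2 N / 2) :=
  (Primrec.nat_div.comp p2 (Primrec.const 2)).to_comp

theorem F2_partrec : Nat.Partrec F2 := by
  apply Partrec.nat_iff.1
  refine Partrec.cond (Primrec.beq.comp (Primrec.nat_mod.comp p2 (Primrec.const 2))
    (Primrec.const 0)).to_comp ?_ ?_
  · refine Partrec.map (phi_partrec.comp (k1.comp (k1.comp (k2.comp k1)))
      (kpair (k2.comp (k1.comp (k2.comp k1))) half_comp)) ?_
    exact (i1_computable ((k1.comp (k1.comp k1)).comp Computable.fst)
      ((k2.comp (k1.comp k1)).comp Computable.fst) (Computable.const 1)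
      ((k2.comp (k2.comp k1)).comp Computable.fst) (half_comp.comp Computable.fst)).to₂
  · exact (i1_computable (k1.comp (k1.comp k1)) (k2.comp (k1.comp k1)) (Computable.const 0)
      (k2.comp (k2.comp k1)) (Computable.succ.comp half_comp)).partrec

/-- code for level two -/
noncomputable def c2 : Code := Classical.choose (Code.exists_code.1 F2_partrec)

theorem c2_eval : c2.eval = F2 := Classical.choose_spec (Code.exists_code.1 F2_partrec)

/-- index at level two -/
noncomputable def i2 (κ a e x ρ : ℕ) : ℕ :=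
  ix c2 (Nat.pair (Nat.pair κ a) (Nat.pair (Nat.pair e x) ρ))

theorem phi_i2 (κ a e x ρ j : ℕ) : phi (i2 κ a e x ρ) j =
    bif (j % 2 == 0) then (phi e (Nat.pair x (j / 2))).map (fun _ => i1 κ a 1 ρ (j / 2))
    else Part.some (i1 κ a 0 ρ (j / 2 + 1)) := by
  simp [i2, phi_ix, c2_eval, F2, a1_pair, a2_pair]

theorem i2_computable {α : Type} [Primcodable α] {κ a e x ρ : α → ℕ} (hκ : Computable κ)
    (ha : Computable a) (he : Computable e) (hx : Computable x) (hρ : Computable ρ) :
    Computable (fun y => i2 (κ y) (a y) (e y) (x y) (ρ y)) :=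
  (ix_computable c2).comp (kpair (kpair hκ ha) (kpair (kpair he hx) hρ))

/-- level two, constants -/
noncomputable def F2' (N : ℕ) : Part ℕ :=
  Part.some (i1 (a1 (a1 (a1 N))) (a2 (a1 (a1 N))) 0 (a1 (a2 (a1 N))) (a2 N + a2 (a2 (a1 N))))

theorem F2'_partrec : Nat.Partrec F2' := by
  apply Partrec.nat_iff.1
  exact (i1_computable (k1.comp (k1.comp k1)) (k2.comp (k1.comp k1)) (Computable.const 0)
      (k1.comp (k2.comp k1)) (Primrec.nat_add.to_comp.comp k2 (k2.comp (k2.comp k1)))).partrec

/-- code for level two constants -/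
noncomputable def c2' : Code := Classical.choose (Code.exists_code.1 F2'_partrec)

theorem c2'_eval : c2'.eval = F2' := Classical.choose_spec (Code.exists_code.1 F2'_partrec)

/-- index at level two, constants -/
noncomputable def iTF (κ a ρ d : ℕ) : ℕ := ix c2' (Nat.pair (Nat.pair κ a) (Nat.pair ρ d))

theorem phi_iTF (κ a ρ d v : ℕ) : phi (iTF κ a ρ d) v = Part.some (i1 κ a 0 ρ (v + d)) := by
  simp [iTF, phi_ix, c2'_eval, F2', a1_pair, a2_pair]

theorem iTF_computable {α : Type} [Primcodable α] {κ a ρ d : α → ℕ} (hκ : Computable κ)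
    (ha : Computable a) (hρ : Computable ρ) (hd : Computable d) :
    Computable (fun y => iTF (κ y) (a y) (ρ y) (d y)) :=
  (ix_computable c2').comp (kpair (kpair hκ ha) (kpair hρ hd))

/-- level three -/
noncomputable def F3 (N : ℕ) : Part ℕ :=
  Part.some (i2 (a1 (a1 (a1 N))) (a2 (a1 (a1 N))) (a1 (a2 (a1 N)))
    (Nat.pair (a2 (a2 (a1 N))) (a2 N)) (a2 N))

theorem F3_partrec : Nat.Partrec F3 := by
  apply Partrec.nat_iff.1
  exact (i2_computable (k1.comp (k1.comp k1)) (k2.comp (k1.comp k1)) (k1.comp (k2.comp k1))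
    (kpair (k2.comp (k2.comp k1)) k2) k2).partrec

/-- code for level three -/
noncomputable def c3 : Code := Classical.choose (Code.exists_code.1 F3_partrec)

theorem c3_eval : c3.eval = F3 := Classical.choose_spec (Code.exists_code.1 F3_partrec)

/-- index at level three -/
noncomputable def i3 (κ a e n : ℕ) : ℕ := ix c3 (Nat.pair (Nat.pair κ a) (Nat.pair e n))

theorem phi_i3 (κ a e n m : ℕ) :
    phi (i3 κ a e n) m = Part.some (i2 κ a e (Nat.pair n m) m) := by
  simp [i3, phi_ix, c3_eval, F3, a1_pair, a2_pair]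

theorem i3_computable (κ a e : ℕ) : Computable (fun n => i3 κ a e n) :=
  (ix_computable c3).comp (kpair (Computable.const _) (kpair (Computable.const _) Computable.id))

/-- the notation function along a limit -/
def F4 (N : ℕ) : Part ℕ := (phi (a2 (a1 N)) (a2 N)).bind (fun a' => V (a1 (a1 N)) a' 0)

theorem F4_partrec : Nat.Partrec F4 := by
  apply Partrec.nat_iff.1
  refine Partrec.bind (phi_partrec.comp (k2.comp k1) k2) ?_
  exact (V_partrec ((k1.comp k1).comp Computable.fst) Computable.snd (Computable.const 0)).to₂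

/-- code for F4 -/
noncomputable def c4 : Code := Classical.choose (Code.exists_code.1 F4_partrec)

theorem c4_eval : c4.eval = F4 := Classical.choose_spec (Code.exists_code.1 F4_partrec)

/-- index of the notation function along a limit -/
noncomputable def iB (κ i : ℕ) : ℕ := ix c4 (Nat.pair κ i)

theorem phi_iB (κ i m : ℕ) : phi (iB κ i) m = (phi i m).bind (fun a' => V κ a' 0) := by
  simp [iB, phi_ix, c4_eval, F4, a1_pair, a2_pair]

theorem iB_computable {α : Type} [Primcodable α] {κ i : α → ℕ} (hκ : Computable κ)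
    (hi : Computable i) : Computable (fun y => iB (κ y) (i y)) :=
  (ix_computable c4).comp (kpair hκ hi)

end Pool.Agent.R575.HY
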