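import Mathlib
import Pool.Agent.R575.HY.Idx

/-!
# The self-referential function
-/

namespace Pool.Agent.R575.HY

open Nat.Partrec (Code)

/-- the values at the notation `1` -/
def baseV (q : ℕ) : ℕ :=
  bif q == 0 then 1
  else (bif a2 (q - 1) == 1 then 2 * a1 (q - 1) + 1 else 2 * a1 (q - 1))

/-- the values at a successor -/
noncomputable def succV (κ i q : ℕ) : Part ℕ :=
  bif q == 0 then (V κ i 0).map (fun b => 2 ^ (2 ^ b))
  else Part.some (bif a2 (q - 1) == 0 then
      i2 κ i (a1 (a1 (q - 1))) (a1 (a1 (q - 1))) (a1 (q - 1))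
    else iTF κ i (a1 (q - 1)) (a2 (q - 1) - 1))

/-- the values at a limit -/
noncomputable def limV (κ i q : ℕ) : Part ℕ :=
  bif q == 0 then Part.some (3 * 5 ^ (iB κ i))
  else (phi i (a1 (a1 (a1 (q - 1))))).bind (fun a' =>
    (V κ a' (qq (a2 (a1 (a1 (q - 1)))) (a2 (a1 (q - 1))) (a2 (q - 1)))).map
      (fun v => Nat.pair (a1 (a1 (a1 (q - 1)))) v))

/-- the body of the recursion -/
noncomputable def body (κ i a q : ℕ) : Part ℕ :=
  bif (2 ^ i == a) then (bif i == 0 then Part.some (baseV q) else succV κ i q) else limV κ i q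

/-- the functional -/
noncomputable def Phi (κ : ℕ) (N : ℕ) : Part ℕ :=
  (Nat.rfind (fun i => Part.some ((2 ^ i == a1 N) || (3 * 5 ^ i == a1 N)))).bind
    (fun i => body κ i (a1 N) (a2 N))

theorem predc {α : Type} [Primcodable α] {f : α → ℕ} (hf : Computable f) :
    Computable (fun x => f x - 1) :=
  (Primrec.nat_sub.to_comp).comp hf (Computable.const 1)

theorem eqc {α : Type} [Primcodable α] {f g : α → ℕ} (hf : Computable f) (hg : Computable g) :
    Computable (fun x => (f x == g x)) :=
  Primrec.beq.to_comp.comp hf hg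

theorem powc {α : Type} [Primcodable α] {f g : α → ℕ} (hf : Computable f) (hg : Computable g) :
    Computable (fun x => f x ^ g x) :=
  primrec_pow.to_comp.comp hf hg

theorem mulc {α : Type} [Primcodable α] {f g : α → ℕ} (hf : Computable f) (hg : Computable g) :
    Computable (fun x => f x * g x) :=
  Primrec.nat_mul.to_comp.comp hf hg

theorem baseV_computable : Computable baseV := by
  have h : Computable (fun q : ℕ => q - 1) := predc Computable.id
  exact Computable.cond (eqc Computable.id (Computable.const 0)) (Computable.const 1)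
    (Computable.cond (eqc (k2.comp h) (Computable.const 1))
      (Computable.succ.comp (mulc (Computable.const 2) (k1.comp h)))
      (mulc (Computable.const 2) (k1.comp h)))

theorem succV_partrec {α : Type} [Primcodable α] {κ i q : α → ℕ} (hκ : Computable κ)
    (hi : Computable i) (hq : Computable q) :
    Partrec (fun x => succV (κ x) (i x) (q x)) := by
  have h := predc hq
  refine Partrec.cond (eqc hq (Computable.const 0)) ?_ ?_
  · refine Partrec.map (V_partrec hκ hi (Computable.const 0)) ?_
    exact (powc (Computable.const 2) (powc (Computable.const 2) Computable.snd)).to₂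
  · exact (Computable.cond (eqc (k2.comp h) (Computable.const 0))
      (i2_computable hκ hi (k1.comp (k1.comp h)) (k1.comp (k1.comp h)) (k1.comp h))
      (iTF_computable hκ hi (k1.comp h) (predc (k2.comp h)))).partrec

theorem limV_partrec {α : Type} [Primcodable α] {κ i q : α → ℕ} (hκ : Computable κ)
    (hi : Computable i) (hq : Computable q) :
    Partrec (fun x => limV (κ x) (i x) (q x)) := by
  have h := predc hq
  refine Partrec.cond (eqc hq (Computable.const 0)) ?_ ?_
  · exact (mulc (Computable.const 3) (powc (Computable.const 5) (iB_computable hκ hi))).partrec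
  · refine Partrec.bind (phi_partrec.comp hi (k1.comp (k1.comp (k1.comp h)))) ?_
    refine Partrec.map (f := fun p : α × ℕ => V (κ p.1) p.2
      (qq (a2 (a1 (a1 (q p.1 - 1)))) (a2 (a1 (q p.1 - 1))) (a2 (q p.1 - 1))))
      (g := fun (p : α × ℕ) v => Nat.pair (a1 (a1 (a1 (q p.1 - 1)))) v) ?_ ?_
    · refine V_partrec (hκ.comp Computable.fst) Computable.snd ?_
      exact Computable.succ.comp (kpair (kpair ((k2.comp (k1.comp (k1.comp h))).comp Computable.fst)
        ((k2.comp (k1.comp h)).comp Computable.fst)) ((k2.comp h).comp Computable.fst))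
    · exact (kpair (((k1.comp (k1.comp (k1.comp h))).comp Computable.fst).comp Computable.fst)
        Computable.snd).to₂

theorem body_partrec {α : Type} [Primcodable α] {κ i a q : α → ℕ} (hκ : Computable κ)
    (hi : Computable i) (ha : Computable a) (hq : Computable q) :
    Partrec (fun x => body (κ x) (i x) (a x) (q x)) := by
  refine Partrec.cond (eqc (powc (Computable.const 2) hi) ha) ?_ (limV_partrec hκ hi hq)
  exact Partrec.cond (eqc hi (Computable.const 0)) ((baseV_computable.comp hq).partrec)
    (succV_partrec hκ hi hq)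

theorem Phi_partrec {α : Type} [Primcodable α] {κ N : α → ℕ} (hκ : Computable κ)
    (hN : Computable N) : Partrec (fun x => Phi (κ x) (N x)) := by
  refine Partrec.bind (Partrec.rfind (p := fun (x : α) (i : ℕ) =>
    Part.some ((2 ^ i == a1 (N x)) || (3 * 5 ^ i == a1 (N x)))) ?_) ?_
  · have h : Computable (fun p : α × ℕ => ((2 ^ p.2 == a1 (N p.1)) || (3 * 5 ^ p.2 == a1 (N p.1)))) :=
      Primrec.or.to_comp.comp
        (eqc (powc (Computable.const 2) Computable.snd) ((k1.comp hN).comp Computable.fst))
        (eqc (mulc (Computable.const 3) (powc (Computable.const 5) Computable.snd))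
          ((k1.comp hN).comp Computable.fst))
    exact h.partrec
  · exact (body_partrec (hκ.comp Computable.fst) Computable.snd ((k1.comp hN).comp Computable.fst)
      ((k2.comp hN).comp Computable.fst)).to₂

theorem exists_self : ∃ κ : ℕ, ∀ N, phi κ N = Phi κ N := by
  have h : Partrec₂ (fun (K : Code) (N : ℕ) => Phi (Encodable.encode K) N) :=
    (Phi_partrec (Computable.encode.comp Computable.fst) Computable.snd).to₂
  obtain ⟨K, hK⟩ := Code.fixed_point₂ h
  refine ⟨Encodable.encode K, fun N => ?_⟩
  have := congrFun hK N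
  simpa [phi] using this

/-- the self-referential index -/
noncomputable def ks : ℕ := Classical.choose exists_self

/-- its values -/
noncomputable def W (a q : ℕ) : Part ℕ := V ks a q

theorem W_eq (a q : ℕ) : W a q =
    (Nat.rfind (fun i => Part.some ((2 ^ i == a) || (3 * 5 ^ i == a)))).bind
    (fun i => body ks i a q) := by
  have := Classical.choose_spec exists_self (Nat.pair a q)
  change phi ks (Nat.pair a q) = Phi ks (Nat.pair a q) at this
  rw [W, V, this, Phi, a1_pair, a2_pair]

theorem two_pow_ne (i j : ℕ) : 2 ^ i ≠ 3 * 5 ^ j := by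
  intro h
  have h1 : 3 ∣ 2 ^ i := ⟨5 ^ j, h⟩
  have h2 := (Nat.prime_three.dvd_of_dvd_pow h1)
  omega

theorem rfind_eq {p : ℕ → Bool} {i : ℕ} (h : p i = true) (h' : ∀ j, p j = true → j = i) :
    Nat.rfind (fun j => Part.some (p j)) = Part.some i := by
  apply Part.eq_some_iff.2
  apply (Nat.mem_rfind (p := fun j => Part.some (p j))).2
  refine ⟨by simpa using h, fun {m} hm => ?_⟩
  simp only [Part.mem_some_iff]
  by_contra hc
  have : p m = true := by
    cases hpm : p m
    · exact absurd hpm.symm hc
    · rfl
  have := h' m this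
  omega

theorem W_zero (q : ℕ) : W 1 q = Part.some (baseV q) := by
  rw [W_eq, rfind_eq (p := fun i => ((2 ^ i == 1) || (3 * 5 ^ i == 1))) (i := 0)]
  · simp [body]
  · simp
  · intro j hj
    simp only [Bool.or_eq_true, beq_iff_eq] at hj
    rcases hj with hj | hj
    · simpa using hj
    · have : 0 < 5 ^ j := by positivity
      omega

theorem W_succ (a q : ℕ) (ha : 0 < a) : W (2 ^ a) q = succV ks a q := by
  rw [W_eq, rfind_eq (p := fun i => ((2 ^ i == 2 ^ a) || (3 * 5 ^ i == 2 ^ a))) (i := a)]
  · have h0 : (a == 0) = false := by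
      simpa using (by omega : a ≠ 0)
    simp [body, h0]
  · simp
  · intro j hj
    simp only [Bool.or_eq_true, beq_iff_eq] at hj
    rcases hj with hj | hj
    · exact Nat.pow_right_injective (le_refl 2) hj
    · exact absurd hj.symm (two_pow_ne _ _)

theorem W_lim (e q : ℕ) : W (3 * 5 ^ e) q = limV ks e q := by
  rw [W_eq, rfind_eq (p := fun i => ((2 ^ i == 3 * 5 ^ e) || (3 * 5 ^ i == 3 * 5 ^ e)))
    (i := e)]
  · have h0 : (2 ^ e == 3 * 5 ^ e) = false := by
      simpa using two_pow_ne e e
    simp [body, h0]
  · simp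
  · intro j hj
    simp only [Bool.or_eq_true, beq_iff_eq] at hj
    rcases hj with hj | hj
    · exact absurd hj (two_pow_ne _ _)
    · have h2 : 5 ^ j = 5 ^ e := by omega
      exact Nat.pow_right_injective (by norm_num : 2 ≤ 5) h2

end Pool.Agent.R575.HY
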