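import Mathlib
import Pool.Agent.R575.HY.Self

/-!
# The coding argument
-/

namespace Pool.Agent.R575.HY

theorem fsjump_iff {E : ℕ → ℕ → Prop} (hE : Equivalence E) (e e' : ℕ) :
    FSJump E e e' ↔ (∀ n x, x ∈ phi e n → ∃ m y, y ∈ phi e' m ∧ E x y) ∧
      (∀ m y, y ∈ phi e' m → ∃ n x, x ∈ phi e n ∧ E x y) := by
  have hcls : ∀ x y, ({z | E x z} : Set ℕ) = {z | E y z} ↔ E x y := by
    intro x y
    constructor
    · intro h
      have : y ∈ ({z | E y z} : Set ℕ) := hE.refl y
      rw [← h] at this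
      exact this
    · intro h
      ext z
      exact ⟨fun hz => hE.trans (hE.symm h) hz, fun hz => hE.trans h hz⟩
  constructor
  · intro h
    constructor
    · intro n x hx
      have : ({y | E x y} : Set ℕ) ∈ {C : Set ℕ | ∃ n, ∃ x ∈ phi e n, C = {y | E x y}} :=
        ⟨n, x, hx, rfl⟩
      rw [h] at this
      obtain ⟨m, y, hy, hxy⟩ := this
      exact ⟨m, y, hy, (hcls x y).1 hxy⟩
    · intro n x hx
      have : ({y | E x y} : Set ℕ) ∈ {C : Set ℕ | ∃ n, ∃ x ∈ phi e' n, C = {y | E x y}} :=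
        ⟨n, x, hx, rfl⟩
      rw [← h] at this
      obtain ⟨m, y, hy, hxy⟩ := this
      exact ⟨m, y, hy, hE.symm ((hcls x y).1 hxy)⟩
  · rintro ⟨h1, h2⟩
    apply Set.eq_of_subset_of_subset
    · rintro C ⟨n, x, hx, rfl⟩
      obtain ⟨m, y, hy, hxy⟩ := h1 n x hx
      exact ⟨m, y, hy, (hcls x y).2 hxy⟩
    · rintro C ⟨m, y, hy, rfl⟩
      obtain ⟨n, x, hx, hxy⟩ := h2 m y hy
      exact ⟨n, x, hx, (hcls y x).2 (hE.symm hxy)⟩

theorem fsjump_equiv (E : ℕ → ℕ → Prop) : Equivalence (FSJump E) :=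
  ⟨fun _ => rfl, fun h => Eq.symm h, fun h h' => Eq.trans h h'⟩

theorem FS_equiv {E : ℕ → ℕ → Prop} (hE : Equivalence E) {a : ℕ} (p : Ntn a) :
    Equivalence (FS E p) := by
  induction p with
  | zero => exact hE
  | succ p ih => exact fsjump_equiv _
  | lim e f hf mono p ih =>
    refine ⟨fun z => ⟨rfl, (ih _).refl _⟩, ?_, ?_⟩
    · rintro z w ⟨h1, h2⟩
      refine ⟨h1.symm, ?_⟩
      rw [← h1]
      exact (ih _).symm h2
    · rintro z w v ⟨h1, h2⟩ ⟨h3, h4⟩
      refine ⟨h1.trans h3, (ih _).trans h2 ?_⟩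
      rw [h1]
      exact h4

theorem exists_bits (P : ℕ → Prop) (N : ℕ) :
    ∃ w : ℕ, ∀ l, w.testBit l = true ↔ (l < N ∧ P l) := by
  induction N with
  | zero => exact ⟨0, fun l => by simp⟩
  | succ N ih =>
    obtain ⟨w, hw⟩ := ih
    by_cases hP : P N
    · refine ⟨w ||| 2 ^ N, fun l => ?_⟩
      rw [Nat.testBit_or, Nat.testBit_two_pow, Bool.or_eq_true, hw, decide_eq_true_iff]
      constructor
      · rintro (⟨h1, h2⟩ | rfl)
        · exact ⟨by omega, h2⟩
        · exact ⟨by omega, hP⟩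
      · rintro ⟨h1, h2⟩
        by_cases h : N = l
        · exact Or.inr h
        · exact Or.inl ⟨by omega, h2⟩
    · refine ⟨w, fun l => ?_⟩
      rw [hw]
      constructor
      · rintro ⟨h1, h2⟩
        exact ⟨by omega, h2⟩
      · rintro ⟨h1, h2⟩
        refine ⟨?_, h2⟩
        by_contra hc
        have : l = N := by omega
        exact hP (this ▸ h2)

/-- the data at a notation: `v n r k` is the value of kind `k` (`0` the item, `1` the constant for
true, `2` the constant for false) -/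
structure Dat (R : ℕ → ℕ → Prop) (X : Set ℕ) (κ a : ℕ) (v : ℕ → ℕ → ℕ → ℕ) : Prop where
  equ : Equivalence R
  val : ∀ n r k, v n r k ∈ V κ a (qq n r k)
  tru : ∀ n r, n ∈ X → R (v n r 0) (v n r 1)
  fal : ∀ n r, n ∉ X → R (v n r 0) (v n r 2)
  sep : ∀ n r k n' r' k', (k = 1 ∨ k = 2) → (k' = 1 ∨ k' = 2) → R (v n r k) (v n' r' k') →
    n = n' ∧ r = r' ∧ k = k'

section core

variable {R : ℕ → ℕ → Prop} {X : Set ℕ} {κ a : ℕ} {v : ℕ → ℕ → ℕ → ℕ} (D : Dat R X κ a v)

include D

theorem phi_Z (ρ w l : ℕ) : phi (i1 κ a 0 ρ w) l =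
    Part.some (v (l / 2) (Nat.pair ρ (l % 2)) (bif w.testBit l then 1 + l % 2 else 2 - l % 2)) := by
  rw [phi_i1]
  apply Part.eq_some_iff.2
  exact D.val _ _ _

theorem phi_A (ρ u l : ℕ) : phi (i1 κ a 1 ρ u) l =
    Part.some (v (l / 2) (Nat.pair ρ (l % 2)) (bif inl u l then 0 else 2 - l % 2)) := by
  rw [phi_i1]
  apply Part.eq_some_iff.2
  exact D.val _ _ _

theorem Z_inj {ρ w ρ' w' : ℕ} (h : FSJump R (i1 κ a 0 ρ w) (i1 κ a 0 ρ' w')) :
    ρ = ρ' ∧ w = w' := by
  rw [fsjump_iff D.equ] at h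
  have key : ∀ l, ρ = ρ' ∧ w.testBit l = w'.testBit l := by
    intro l
    have hl : l % 2 = 0 ∨ l % 2 = 1 := by omega
    obtain ⟨l', y, hy, hxy⟩ := h.1 l _ (by rw [phi_Z D]; exact Part.mem_some _)
    rw [phi_Z D, Part.mem_some_iff] at hy
    subst hy
    have hl' : l' % 2 = 0 ∨ l' % 2 = 1 := by omega
    obtain ⟨h1, h2, h3⟩ := D.sep _ _ _ _ _ _
      (by cases w.testBit l <;> simp only [cond_true, cond_false] <;> omega)
      (by cases w'.testBit l' <;> simp only [cond_true, cond_false] <;> omega) hxy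
    obtain ⟨h4, h5⟩ := Nat.pair_eq_pair.1 h2
    have h6 : l = l' := by omega
    subst h6
    refine ⟨h4, ?_⟩
    cases hw : w.testBit l <;> cases hw' : w'.testBit l <;> rw [hw, hw'] at h3 <;>
      simp only [cond_true, cond_false] at h3 <;> first | rfl | omega
  exact ⟨(key 0).1, Nat.eq_of_testBit_eq (fun l => (key l).2)⟩

/-- the truth of a literal -/
def Lit (X : Set ℕ) (l : ℕ) : Prop := (l / 2 ∈ X ↔ l % 2 = 1)

theorem A_eq (ρ u w : ℕ) (hw : ∀ l, w.testBit l = true ↔ (inl u l = true ∧ ¬ Lit X l)) :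
    FSJump R (i1 κ a 1 ρ u) (i1 κ a 0 ρ w) := by
  have key : ∀ l, R (v (l / 2) (Nat.pair ρ (l % 2)) (bif inl u l then 0 else 2 - l % 2))
      (v (l / 2) (Nat.pair ρ (l % 2)) (bif w.testBit l then 1 + l % 2 else 2 - l % 2)) := by
    intro l
    have hl : l % 2 = 0 ∨ l % 2 = 1 := by omega
    cases hi : inl u l
    · have : w.testBit l = false := by
        cases hb : w.testBit l
        · rfl
        · have := (hw l).1 hb
          rw [hi] at this
          exact absurd this.1 (by simp)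
      rw [this]
      exact D.equ.refl _
    · simp only [cond_true]
      by_cases hL : Lit X l
      · have : w.testBit l = false := by
          cases hb : w.testBit l
          · rfl
          · exact absurd hL ((hw l).1 hb).2
        rw [this]
        simp only [cond_false]
        rcases hl with hl | hl
        · have : l / 2 ∉ X := fun hc => by
            have := hL.1 hc
            omega
          rw [hl]
          exact D.fal _ _ this
        · rw [hl]
          exact D.tru _ _ (hL.2 hl)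
      · have : w.testBit l = true := (hw l).2 ⟨hi, hL⟩
        rw [this]
        simp only [cond_true]
        rcases hl with hl | hl
        · have : l / 2 ∈ X := by
            by_contra hc
            exact hL ⟨fun h => absurd h hc, fun h => by omega⟩
          rw [hl]
          exact D.tru _ _ this
        · have : l / 2 ∉ X := fun hc => hL ⟨fun _ => hl, fun _ => hc⟩
          rw [hl]
          exact D.fal _ _ this
  rw [fsjump_iff D.equ]
  constructor
  · intro l x hx
    rw [phi_A D, Part.mem_some_iff] at hx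
    subst hx
    exact ⟨l, _, by rw [phi_Z D]; exact Part.mem_some _, key l⟩
  · intro l x hx
    rw [phi_Z D, Part.mem_some_iff] at hx
    subst hx
    exact ⟨l, _, by rw [phi_A D]; exact Part.mem_some _, key l⟩

omit D in
theorem agree_iff (u : ℕ) : Agree X u ↔ ∀ l, inl u l = true → Lit X l := by
  constructor
  · intro h l hl
    simp only [inl, Bool.and_eq_true, decide_eq_true_eq, beq_iff_eq] at hl
    have := h (l / 2) hl.1
    change ((a2 u).testBit (l / 2) = true ↔ _) at this
    rw [hl.2] at this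
    unfold Lit
    rw [← this]
    simp
  · intro h i hi
    change ((a2 u).testBit i = true ↔ _)
    change i < a1 u at hi
    cases hb : (a2 u).testBit i
    · have := h (2 * i) (by
        simp only [inl, Bool.and_eq_true, decide_eq_true_eq, beq_iff_eq]
        rw [show 2 * i / 2 = i by omega]
        refine ⟨hi, ?_⟩
        rw [hb, show 2 * i % 2 = 0 by omega]
        rfl)
      unfold Lit at this
      rw [show 2 * i / 2 = i by omega] at this
      rw [this]
      simp
    · have := h (2 * i + 1) (by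
        simp only [inl, Bool.and_eq_true, decide_eq_true_eq, beq_iff_eq]
        rw [show (2 * i + 1) / 2 = i by omega]
        refine ⟨hi, ?_⟩
        rw [hb, show (2 * i + 1) % 2 = 1 by omega]
        rfl)
      unfold Lit at this
      rw [show (2 * i + 1) / 2 = i by omega] at this
      rw [this]
      simp

theorem A_exists (ρ u : ℕ) : ∃ w, FSJump R (i1 κ a 1 ρ u) (i1 κ a 0 ρ w) ∧
    (w = 0 ↔ Agree X u) := by
  obtain ⟨w, hw⟩ := exists_bits (fun l => inl u l = true ∧ ¬ Lit X l) (2 * a1 u)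
  have hw' : ∀ l, w.testBit l = true ↔ (inl u l = true ∧ ¬ Lit X l) := by
    intro l
    rw [hw l]
    constructor
    · exact fun h => h.2
    · intro h
      refine ⟨?_, h⟩
      have h1 := h.1
      simp only [inl, Bool.and_eq_true, decide_eq_true_eq] at h1
      omega
  refine ⟨w, A_eq D ρ u w hw', ?_⟩
  rw [agree_iff]
  constructor
  · intro h0 l hl
    by_contra hc
    have := (hw' l).2 ⟨hl, hc⟩
    rw [h0] at this
    simp at this
  · intro h
    apply Nat.eq_of_testBit_eq
    intro l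
    rw [Nat.zero_testBit]
    cases hb : w.testBit l
    · rfl
    · have := (hw' l).1 hb
      exact absurd (h l this.1) this.2

theorem O_true {e x ρ : ℕ} (h : ∃ u, Agree X u ∧ (phi e (Nat.pair x u)).Dom) :
    FSJump (FSJump R) (i2 κ a e x ρ) (iTF κ a ρ 0) := by
  rw [fsjump_iff (fsjump_equiv R)]
  constructor
  · intro j y hy
    rw [phi_i2] at hy
    cases hj : (j % 2 == 0)
    · rw [hj] at hy
      simp only [cond_false, Part.mem_some_iff] at hy
      subst hy
      exact ⟨j / 2 + 1, _, by rw [phi_iTF]; exact Part.mem_some _, (fsjump_equiv R).refl _⟩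
    · rw [hj] at hy
      simp only [cond_true, Part.mem_map_iff] at hy
      obtain ⟨_, _, rfl⟩ := hy
      obtain ⟨w, hw, _⟩ := A_exists D ρ (j / 2)
      exact ⟨w, _, by rw [phi_iTF]; exact Part.mem_some _, hw⟩
  · intro m y hy
    rw [phi_iTF, Part.mem_some_iff] at hy
    subst hy
    rcases Nat.eq_zero_or_pos m with hm | hm
    · subst hm
      obtain ⟨u, hu, hd⟩ := h
      obtain ⟨w, hw, hw0⟩ := A_exists D ρ u
      have hw' := hw0.2 hu
      subst hw'
      refine ⟨2 * u, i1 κ a 1 ρ u, ?_, hw⟩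
      rw [phi_i2, show 2 * u % 2 = 0 by omega, show 2 * u / 2 = u by omega]
      rw [show ((0 : ℕ) == 0) = true from rfl, cond_true, Part.mem_map_iff]
      exact ⟨_, Part.get_mem hd, rfl⟩
    · refine ⟨2 * (m - 1) + 1, i1 κ a 0 ρ (m + 0), ?_, (fsjump_equiv R).refl _⟩
      rw [phi_i2, show (2 * (m - 1) + 1) % 2 = 1 by omega,
        show (2 * (m - 1) + 1) / 2 + 1 = m by omega]
      exact Part.mem_some _

theorem O_false {e x ρ : ℕ} (h : ¬ ∃ u, Agree X u ∧ (phi e (Nat.pair x u)).Dom) :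
    FSJump (FSJump R) (i2 κ a e x ρ) (iTF κ a ρ 1) := by
  rw [fsjump_iff (fsjump_equiv R)]
  constructor
  · intro j y hy
    rw [phi_i2] at hy
    cases hj : (j % 2 == 0)
    · rw [hj] at hy
      simp only [cond_false, Part.mem_some_iff] at hy
      subst hy
      exact ⟨j / 2, _, by rw [phi_iTF]; exact Part.mem_some _, (fsjump_equiv R).refl _⟩
    · rw [hj] at hy
      simp only [cond_true, Part.mem_map_iff] at hy
      obtain ⟨z, hz, rfl⟩ := hy
      obtain ⟨w, hw, hw0⟩ := A_exists D ρ (j / 2)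
      have hne : w ≠ 0 := fun h0 => h ⟨j / 2, hw0.1 h0, Part.dom_iff_mem.2 ⟨z, hz⟩⟩
      refine ⟨w - 1, _, by rw [phi_iTF]; exact Part.mem_some _, ?_⟩
      rw [show w - 1 + 1 = w by omega]
      exact hw
  · intro m y hy
    rw [phi_iTF, Part.mem_some_iff] at hy
    subst hy
    refine ⟨2 * m + 1, i1 κ a 0 ρ (m + 1), ?_, (fsjump_equiv R).refl _⟩
    rw [phi_i2, show (2 * m + 1) % 2 = 1 by omega, show (2 * m + 1) / 2 + 1 = m + 1 by omega]
    exact Part.mem_some _

theorem TF_inj {ρ d ρ' d' : ℕ} (h : FSJump (FSJump R) (iTF κ a ρ d) (iTF κ a ρ' d')) :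
    ρ = ρ' ∧ d = d' := by
  rw [fsjump_iff (fsjump_equiv R)] at h
  obtain ⟨m, y, hy, hxy⟩ := h.1 0 _ (by rw [phi_iTF]; exact Part.mem_some _)
  rw [phi_iTF, Part.mem_some_iff] at hy
  subst hy
  obtain ⟨h1, h2⟩ := Z_inj D hxy
  obtain ⟨m', y', hy', hxy'⟩ := h.2 0 _ (by rw [phi_iTF]; exact Part.mem_some _)
  rw [phi_iTF, Part.mem_some_iff] at hy'
  subst hy'
  obtain ⟨h3, h4⟩ := Z_inj D hxy'
  exact ⟨h1, by omega⟩

end core

end Pool.Agent.R575.HY
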