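import Mathlib
import Pool.Agent.R575.HY.Core

/-!
# Every hyperarithmetic equivalence relation is below an iterate of the jump of equality
-/

namespace Pool.Agent.R575.HY

open Nat.Partrec (Code)

theorem eq_equiv : Equivalence (fun n m : ℕ => n = m) :=
  ⟨fun _ => rfl, fun h => h.symm, fun h h' => h.trans h'⟩

/-- identity iterated -/
abbrev ID {a : ℕ} (p : Ntn a) : ℕ → ℕ → Prop := FS (fun n m => n = m) p

theorem ntn_pos {a : ℕ} (p : Ntn a) : 0 < a := by
  cases p <;> positivity

theorem w_unique {a q x y : ℕ} (hx : x ∈ W a q) (hy : y ∈ W a q) : x = y :=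
  Part.mem_unique hx hy

/-- the main statement of the induction -/
def Good {a : ℕ} (p : Ntn a) : Prop :=
  ∃ (b : ℕ) (q : Ntn b) (v : ℕ → ℕ → ℕ → ℕ), b ∈ W a 0 ∧ Dat (ID q) (H p) ks a v

theorem good_zero : Good Ntn.zero := by
  refine ⟨1, Ntn.zero, fun n r k => bif k == 1 then 2 * Nat.pair n r + 1 else 2 * Nat.pair n r,
    ?_, ?_⟩
  · rw [W_zero]
    exact Part.mem_some _
  · refine ⟨eq_equiv, ?_, ?_, ?_, ?_⟩
    · intro n r k
      have := W_zero (qq n r k)
      unfold W at this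
      rw [this, Part.mem_some_iff]
      have h1 : a1 (qq n r k - 1) = Nat.pair n r := by simp [qq, a1_pair]
      have h2 : a2 (qq n r k - 1) = k := by simp [qq, a2_pair]
      have h3 : (qq n r k == 0) = false := by simp [qq]
      rw [baseV, h1, h2, h3, cond_false]
    · intro n r h
      exact absurd h (Set.notMem_empty n)
    · intro n r _
      rfl
    · intro n r k n' r' k' hk hk' h
      change (bif k == 1 then 2 * Nat.pair n r + 1 else 2 * Nat.pair n r) =
        (bif k' == 1 then 2 * Nat.pair n' r' + 1 else 2 * Nat.pair n' r') at h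
      have : Nat.pair n r = Nat.pair n' r' ∧ k = k' := by
        rcases hk with rfl | rfl <;> rcases hk' with rfl | rfl <;> simp at h ⊢ <;> omega
      obtain ⟨h1, h2⟩ := this
      obtain ⟨h3, h4⟩ := Nat.pair_eq_pair.1 h1
      exact ⟨h3, h4, h2⟩

theorem good_succ {a : ℕ} {p : Ntn a} (h : Good p) : Good (Ntn.succ p) := by
  obtain ⟨b, q, v, hb, D⟩ := h
  refine ⟨2 ^ (2 ^ b), Ntn.succ (Ntn.succ q), fun n r k =>
    bif k == 0 then i2 ks a n n (Nat.pair n r) else iTF ks a (Nat.pair n r) (k - 1), ?_, ?_⟩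
  · rw [W_succ _ _ (ntn_pos p), succV]
    simp only [BEq.rfl, cond_true, Part.mem_map_iff]
    exact ⟨b, hb, rfl⟩
  · refine ⟨FS_equiv eq_equiv _, ?_, ?_, ?_, ?_⟩
    · intro n r k
      have := W_succ a (qq n r k) (ntn_pos p)
      unfold W at this
      rw [this]
      have h1 : a1 (qq n r k - 1) = Nat.pair n r := by simp [qq, a1_pair]
      have h2 : a2 (qq n r k - 1) = k := by simp [qq, a2_pair]
      have h3 : (qq n r k == 0) = false := by simp [qq]
      rw [succV, h1, h2, h3, cond_false, a1_pair]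
      exact Part.mem_some _
    · intro n r hn
      exact O_true D hn
    · intro n r hn
      exact O_false D hn
    · intro n r k n' r' k' hk hk' h
      have hk0 : (k == 0) = false := by rcases hk with rfl | rfl <;> rfl
      have hk0' : (k' == 0) = false := by rcases hk' with rfl | rfl <;> rfl
      simp only [hk0, hk0', cond_false] at h
      obtain ⟨h1, h2⟩ := TF_inj D h
      obtain ⟨h3, h4⟩ := Nat.pair_eq_pair.1 h1
      exact ⟨h3, h4, by omega⟩

/-- monotonicity -/
def Mono (a' : ℕ) : Prop := ∀ a, LtO a a' → ∃ b ∈ W a 0, ∃ b' ∈ W a' 0, LtO b b'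

theorem step_two {c a : ℕ} (h : Step c (2 ^ a)) : c = a := by
  generalize hx : 2 ^ a = x at h
  cases h with
  | succ c hc => exact (Nat.pow_right_injective (le_refl 2) hx).symm
  | lim e n c hc => exact absurd hx (two_pow_ne _ _)

theorem step_one {c : ℕ} (h : Step c 1) : False := by
  generalize hx : (1 : ℕ) = x at h
  cases h with
  | succ c hc =>
    have : 2 ^ 1 ≤ 2 ^ c := Nat.pow_le_pow_right (by norm_num) hc
    omega
  | lim e n c hc =>
    have : 0 < 5 ^ e := by positivity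
    omega

theorem step_lim {c e : ℕ} (h : Step c (3 * 5 ^ e)) : ∃ n, c ∈ phi e n := by
  generalize hx : 3 * 5 ^ e = x at h
  cases h with
  | succ c hc => exact absurd hx.symm (two_pow_ne _ _)
  | lim e' n c hc =>
    have h2 : 5 ^ e = 5 ^ e' := by omega
    have := Nat.pow_right_injective (by norm_num : 2 ≤ 5) h2
    subst this
    exact ⟨n, hc⟩

theorem lto_cases {a a' : ℕ} (h : LtO a a') : ∃ c, Step c a' ∧ (a = c ∨ LtO a c) := by
  cases h with
  | single h => exact ⟨a, h, Or.inl rfl⟩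
  | tail h1 h2 => exact ⟨_, h2, Or.inr h1⟩

theorem FS_lim_pair {E : ℕ → ℕ → Prop} (e : ℕ) (f : ℕ → ℕ) (hf : ∀ n, f n ∈ phi e n)
    (mono : ∀ n, LtO (f n) (f (n + 1))) (p : ∀ n, Ntn (f n)) (m x n y : ℕ) :
    FS E (Ntn.lim e f hf mono p) (Nat.pair m x) (Nat.pair n y) ↔ (m = n ∧ FS E (p m) x y) := by
  have key : ∀ P Q : ℕ × ℕ, P = (m, x) → Q = (n, y) →
      ((P.1 = Q.1 ∧ FS E (p P.1) P.2 Q.2) ↔ (m = n ∧ FS E (p m) x y)) := by
    rintro P Q rfl rfl
    exact Iff.rfl
  exact key _ _ (Nat.unpair_pair m x) (Nat.unpair_pair n y)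

theorem main {a : ℕ} (p : Ntn a) : Good p ∧ Mono a := by
  induction p with
  | zero =>
    refine ⟨good_zero, fun a h => ?_⟩
    obtain ⟨c, hc, _⟩ := lto_cases h
    exact (step_one hc).elim
  | @succ a p ih =>
    refine ⟨good_succ ih.1, fun a' h => ?_⟩
    obtain ⟨c, hc, hac⟩ := lto_cases h
    have hca := step_two hc
    subst hca
    obtain ⟨b, q, v, hb, D⟩ := ih.1
    have hb' : 2 ^ (2 ^ b) ∈ W (2 ^ c) 0 := by
      rw [W_succ _ _ (ntn_pos p), succV]
      simp only [BEq.rfl, cond_true, Part.mem_map_iff]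
      exact ⟨b, hb, rfl⟩
    have hlt : LtO b (2 ^ (2 ^ b)) :=
      Relation.TransGen.tail (Relation.TransGen.single (Step.succ b (ntn_pos q)))
        (Step.succ (2 ^ b) (by positivity))
    rcases hac with rfl | hac
    · exact ⟨b, hb, _, hb', hlt⟩
    · obtain ⟨b1, hb1, b2, hb2, hlt2⟩ := ih.2 a' hac
      have : b2 = b := w_unique hb2 hb
      subst this
      exact ⟨b1, hb1, _, hb', Relation.TransGen.trans hlt2 hlt⟩
  | lim e f hf mono p ih =>
    have hg : ∀ n, ∃ (b : ℕ) (q : Ntn b) (v : ℕ → ℕ → ℕ → ℕ), b ∈ W (f n) 0 ∧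
      Dat (ID q) (H (p n)) ks (f n) v := fun n => (ih n).1
    choose b q v hb D using hg
    have hphi : ∀ n, b n ∈ phi (iB ks e) n := by
      intro n
      rw [phi_iB, Part.mem_bind_iff]
      exact ⟨f n, hf n, hb n⟩
    have hmono : ∀ n, LtO (b n) (b (n + 1)) := by
      intro n
      obtain ⟨b1, hb1, b2, hb2, hlt⟩ := (ih (n + 1)).2 _ (mono n)
      rw [w_unique (hb n) hb1, w_unique (hb (n + 1)) hb2]
      exact hlt
    have hW : 3 * 5 ^ (iB ks e) ∈ W (3 * 5 ^ e) 0 := by
      rw [W_lim, limV]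
      simp
    constructor
    · refine ⟨3 * 5 ^ (iB ks e), Ntn.lim (iB ks e) b hphi hmono q,
        fun z r k => Nat.pair z.unpair.1 (v z.unpair.1 z.unpair.2 r k), hW, ?_⟩
      refine ⟨FS_equiv eq_equiv _, ?_, ?_, ?_, ?_⟩
      · intro z r k
        have := W_lim e (qq z r k)
        unfold W at this
        rw [this]
        have h1 : a1 (qq z r k - 1) = Nat.pair z r := by simp [qq, a1_pair]
        have h2 : a2 (qq z r k - 1) = k := by simp [qq, a2_pair]
        have h3 : (qq z r k == 0) = false := by simp [qq]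
        rw [limV, h1, h2, h3, cond_false, a1_pair, a2_pair, Part.mem_bind_iff]
        refine ⟨f (a1 z), hf _, ?_⟩
        rw [Part.mem_map_iff]
        exact ⟨_, (D (a1 z)).val _ _ _, rfl⟩
      · intro z r hz
        exact (FS_lim_pair _ _ _ _ _ _ _ _ _).2 ⟨rfl, (D _).tru _ _ hz⟩
      · intro z r hz
        exact (FS_lim_pair _ _ _ _ _ _ _ _ _).2 ⟨rfl, (D _).fal _ _ hz⟩
      · intro z r k z' r' k' hk hk' h
        obtain ⟨h1, h2⟩ := (FS_lim_pair _ _ _ _ _ _ _ _ _).1 h
        rw [← h1] at h2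
        obtain ⟨h3, h4, h5⟩ := (D _).sep _ _ _ _ _ _ hk hk' h2
        refine ⟨?_, h4, h5⟩
        rw [← Nat.pair_unpair z, ← Nat.pair_unpair z', h3, h1]
    · intro a' h
      obtain ⟨c, hc, hac⟩ := lto_cases h
      obtain ⟨n, hn⟩ := step_lim hc
      have hcf : c = f n := Part.mem_unique hn (hf n)
      subst hcf
      have hlt : LtO (b n) (3 * 5 ^ (iB ks e)) :=
        Relation.TransGen.single (Step.lim _ _ _ (hphi n))
      rcases hac with rfl | hac
      · exact ⟨b n, hb n, _, hW, hlt⟩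
      · obtain ⟨b1, hb1, b2, hb2, hlt2⟩ := (ih n).2 a' hac
        have : b2 = b n := w_unique hb2 (hb n)
        subst this
        exact ⟨b1, hb1, _, hW, Relation.TransGen.trans hlt2 hlt⟩

/-- the reduction, from an index of an oracle enumeration -/
theorem reduction {a : ℕ} (p : Ntn a) (E : ℕ → ℕ → Prop) (hE : Equivalence E) (e : ℕ)
    (he : ∀ n m, E n m ↔ ∃ u, Agree (H p) u ∧ (phi e (Nat.pair (Nat.pair n m) u)).Dom) :
    ∃ (b : ℕ) (q : Ntn b), CRed E (ID q) := by
  obtain ⟨b, q, v, hb, D⟩ := (main p).1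
  refine ⟨_, Ntn.succ (Ntn.succ (Ntn.succ q)), fun n => i3 ks a e n, i3_computable ks a e, ?_⟩
  intro n n'
  change _ ↔ FSJump (FSJump (FSJump (ID q))) (i3 ks a e n) (i3 ks a e n')
  have Req := fsjump_equiv (FSJump (ID q))
  rw [fsjump_iff Req]
  have ht : ∀ n m, E n m → FSJump (FSJump (ID q)) (i2 ks a e (Nat.pair n m) m)
      (iTF ks a m 0) := fun n m h => O_true D ((he n m).1 h)
  have hf : ∀ n m, ¬ E n m → FSJump (FSJump (ID q)) (i2 ks a e (Nat.pair n m) m)
      (iTF ks a m 1) := fun n m h => O_false D (fun h' => h ((he n m).2 h'))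
  have hsame : ∀ n n' m, (E n m ↔ E n' m) → FSJump (FSJump (ID q))
      (i2 ks a e (Nat.pair n m) m) (i2 ks a e (Nat.pair n' m) m) := by
    intro n n' m h
    by_cases h1 : E n m
    · exact Req.trans (ht n m h1) (Req.symm (ht n' m (h.1 h1)))
    · exact Req.trans (hf n m h1) (Req.symm (hf n' m (fun h2 => h1 (h.2 h2))))
  constructor
  · intro hnn
    have hiff : ∀ m, E n m ↔ E n' m := fun m =>
      ⟨fun h => hE.trans (hE.symm hnn) h, fun h => hE.trans hnn h⟩
    constructor
    · intro m x hx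
      rw [phi_i3, Part.mem_some_iff] at hx
      subst hx
      exact ⟨m, _, by rw [phi_i3]; exact Part.mem_some _, hsame n n' m (hiff m)⟩
    · intro m x hx
      rw [phi_i3, Part.mem_some_iff] at hx
      subst hx
      exact ⟨m, _, by rw [phi_i3]; exact Part.mem_some _, hsame n n' m (hiff m)⟩
  · rintro ⟨h1, _⟩
    obtain ⟨m, y, hy, hxy⟩ := h1 n _ (by rw [phi_i3]; exact Part.mem_some _)
    rw [phi_i3, Part.mem_some_iff] at hy
    subst hy
    have h2 := Req.trans (Req.symm (ht n n (hE.refl n))) hxy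
    by_cases h3 : E n' m
    · have h4 := Req.trans h2 (ht n' m h3)
      obtain ⟨h5, _⟩ := TF_inj D h4
      subst h5
      exact hE.symm h3
    · have h4 := Req.trans h2 (hf n' m h3)
      obtain ⟨_, h5⟩ := TF_inj D h4
      omega

end Pool.Agent.R575.HY
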