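import Mathlib
import Pool.Agent.R575.HY.Main

/-!
# Oracle computations through initial segments
-/

namespace Pool.Agent.R575.HY

open Nat.Partrec (Code)

theorem bind_chain {α β : Type} {x : Part α} {g : α → Part β} {b : β} :
    b ∈ (x >>= g) ↔ ∃ a ∈ x, b ∈ g a := Part.mem_bind_iff

theorem functional (X : Set ℕ) {f : ℕ →. ℕ} (h : Nat.RecursiveIn {chi X} f) :
    ∃ Φ : ℕ → Part ℕ, Partrec Φ ∧
      (∀ n u m, Agree X u → m ∈ Φ (Nat.pair n u) → m ∈ f n) ∧
      (∀ n m, m ∈ f n → ∃ k0, ∀ u, Agree X u → k0 ≤ a1 u → m ∈ Φ (Nat.pair n u)) := by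
  induction h with
  | zero =>
    refine ⟨fun _ => Part.some 0, (Computable.const 0).partrec, ?_, ?_⟩
    · intro n u m _ h
      exact h
    · intro n m h
      exact ⟨0, fun u _ _ => h⟩
  | succ =>
    refine ⟨fun N => Part.some (a1 N + 1), (Computable.succ.comp k1).partrec, ?_, ?_⟩
    · intro n u m _ h
      beta_reduce at h
      rw [a1_pair] at h
      exact h
    · intro n m h
      refine ⟨0, fun u _ _ => ?_⟩
      beta_reduce
      rw [a1_pair]
      exact h
  | left =>
    refine ⟨fun N => Part.some (a1 (a1 N)), (k1.comp k1).partrec, ?_, ?_⟩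
    · intro n u m _ h
      beta_reduce at h
      rw [a1_pair] at h
      exact h
    · intro n m h
      refine ⟨0, fun u _ _ => ?_⟩
      beta_reduce
      rw [a1_pair]
      exact h
  | right =>
    refine ⟨fun N => Part.some (a2 (a1 N)), (k2.comp k1).partrec, ?_, ?_⟩
    · intro n u m _ h
      beta_reduce at h
      rw [a1_pair] at h
      exact h
    · intro n m h
      refine ⟨0, fun u _ _ => ?_⟩
      beta_reduce
      rw [a1_pair]
      exact h
  | oracle g hg =>
    rw [Set.mem_singleton_iff] at hg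
    subst hg
    refine ⟨fun N => bif decide (a1 N < a1 (a2 N)) then
      Part.some (bif (a2 (a2 N)).testBit (a1 N) then 1 else 0) else Part.none, ?_, ?_, ?_⟩
    · refine Partrec.cond (Primrec.nat_lt.comp p1 (p1.comp p2)).decide.to_comp ?_ Partrec.none
      exact (Computable.cond (primrec_testBit.comp (p2.comp p2) p1).to_comp (Computable.const 1)
        (Computable.const 0)).partrec
    · intro n u m hu h
      beta_reduce at h
      rw [a1_pair, a2_pair] at h
      by_cases hn : n < a1 u
      · rw [decide_eq_true hn, cond_true, Part.mem_some_iff] at h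
        have := hu n hn
        change ((a2 u).testBit n = true ↔ _) at this
        rw [h, chi, Part.mem_some_iff]
        by_cases hX : n ∈ X
        · rw [this.2 hX, if_pos hX]
          rfl
        · have h2 : (a2 u).testBit n = false := by
            cases hb : (a2 u).testBit n
            · rfl
            · exact absurd (this.1 hb) hX
          rw [h2, if_neg hX]
          rfl
      · rw [decide_eq_false hn, cond_false] at h
        exact absurd h (Part.notMem_none m)
    · intro n m h
      refine ⟨n + 1, fun u hu hk => ?_⟩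
      beta_reduce
      rw [a1_pair, a2_pair]
      have hn : n < a1 u := by omega
      rw [decide_eq_true hn, cond_true]
      have := hu n hn
      change ((a2 u).testBit n = true ↔ _) at this
      rw [chi, Part.mem_some_iff] at h
      rw [Part.mem_some_iff, h]
      by_cases hX : n ∈ X
      · rw [this.2 hX, if_pos hX]
        rfl
      · have h2 : (a2 u).testBit n = false := by
          cases hb : (a2 u).testBit n
          · rfl
          · exact absurd (this.1 hb) hX
        rw [h2, if_neg hX]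
        rfl
  | @pair f g hf hg ihf ihg =>
    obtain ⟨F, F1, F2, F3⟩ := ihf
    obtain ⟨G, G1, G2, G3⟩ := ihg
    have hmem : ∀ n m, m ∈ (Nat.pair <$> f n <*> g n) ↔
        ∃ x ∈ f n, ∃ y ∈ g n, m = Nat.pair x y := by
      intro n m
      simp [Seq.seq, eq_comm]
    refine ⟨fun N => (F N).bind (fun x => (G N).map (fun y => Nat.pair x y)), ?_, ?_, ?_⟩
    · refine Partrec.bind F1 ?_
      refine Partrec.map (f := fun p : ℕ × ℕ => G p.1) (g := fun (p : ℕ × ℕ) y => Nat.pair p.2 y)
        (G1.comp Computable.fst) ?_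
      exact (kpair (Computable.snd.comp Computable.fst) Computable.snd).to₂
    · intro n u m hu h
      rw [Part.mem_bind_iff] at h
      obtain ⟨x, hx, h⟩ := h
      rw [Part.mem_map_iff] at h
      obtain ⟨y, hy, rfl⟩ := h
      exact (hmem _ _).2 ⟨x, F2 _ _ _ hu hx, y, G2 _ _ _ hu hy, rfl⟩
    · intro n m h
      obtain ⟨x, hx, y, hy, rfl⟩ := (hmem _ _).1 h
      obtain ⟨k, hk⟩ := F3 _ _ hx
      obtain ⟨l, hl⟩ := G3 _ _ hy
      refine ⟨max k l, fun u hu hk' => ?_⟩
      rw [Part.mem_bind_iff]
      refine ⟨x, hk u hu (le_trans (le_max_left _ _) hk'), ?_⟩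
      rw [Part.mem_map_iff]
      exact ⟨y, hl u hu (le_trans (le_max_right _ _) hk'), rfl⟩
  | @comp f g hf hg ihf ihg =>
    obtain ⟨F, F1, F2, F3⟩ := ihf
    obtain ⟨G, G1, G2, G3⟩ := ihg
    refine ⟨fun N => (G N).bind (fun y => F (Nat.pair y (a2 N))), ?_, ?_, ?_⟩
    · refine Partrec.bind G1 ?_
      exact F1.comp (kpair Computable.snd (k2.comp Computable.fst))
    · intro n u m hu h
      rw [Part.mem_bind_iff] at h
      obtain ⟨x, hx, h⟩ := h
      rw [a2_pair] at h
      exact bind_chain.2 ⟨x, G2 _ _ _ hu hx, F2 _ _ _ hu h⟩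
    · intro n m h
      obtain ⟨x, hx, h⟩ := bind_chain.1 h
      obtain ⟨k, hk⟩ := G3 _ _ hx
      obtain ⟨l, hl⟩ := F3 _ _ h
      refine ⟨max k l, fun u hu hk' => ?_⟩
      rw [Part.mem_bind_iff]
      refine ⟨x, hk u hu (le_trans (le_max_left _ _) hk'), ?_⟩
      rw [a2_pair]
      exact hl u hu (le_trans (le_max_right _ _) hk')
  | @prec f g hf hg ihf ihg =>
    obtain ⟨F, F1, F2, F3⟩ := ihf
    obtain ⟨G, G1, G2, G3⟩ := ihg
    refine ⟨fun N => (a2 (a1 N)).rec (F (Nat.pair (a1 (a1 N)) (a2 N))) (fun y IH => IH.bind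
      (fun i => G (Nat.pair (Nat.pair (a1 (a1 N)) (Nat.pair y i)) (a2 N)))), ?_, ?_, ?_⟩
    · refine Partrec.nat_rec (h := fun N (p : ℕ × ℕ) =>
        G (Nat.pair (Nat.pair (a1 (a1 N)) (Nat.pair p.1 p.2)) (a2 N))) (k2.comp k1)
        (F1.comp (kpair (k1.comp k1) k2)) ?_
      exact G1.comp (kpair (kpair ((k1.comp k1).comp Computable.fst)
        (kpair (Computable.fst.comp Computable.snd) (Computable.snd.comp Computable.snd)))
        (k2.comp Computable.fst))
    · intro n u m hu h
      beta_reduce at h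
      rw [a1_pair, a2_pair] at h
      change m ∈ (Nat.rec (f n.unpair.1) (fun y IH => IH >>= fun i =>
        g (Nat.pair n.unpair.1 (Nat.pair y i))) n.unpair.2 : Part ℕ)
      change m ∈ (Nat.rec (F (Nat.pair n.unpair.1 u)) (fun y IH => IH.bind (fun i =>
        G (Nat.pair (Nat.pair n.unpair.1 (Nat.pair y i)) u))) n.unpair.2 : Part ℕ) at h
      generalize n.unpair.2 = t at h ⊢
      generalize n.unpair.1 = s at h ⊢
      induction t generalizing m with
      | zero => exact F2 _ _ _ hu h
      | succ t ih =>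
        obtain ⟨i, hi, h⟩ := Part.mem_bind_iff.1 h
        exact bind_chain.2 ⟨i, ih i hi, G2 _ _ _ hu h⟩
    · intro n m h
      change m ∈ (Nat.rec (f n.unpair.1) (fun y IH => IH >>= fun i =>
        g (Nat.pair n.unpair.1 (Nat.pair y i))) n.unpair.2 : Part ℕ) at h
      suffices hs : ∃ k0, ∀ u, Agree X u → k0 ≤ a1 u → m ∈ (Nat.rec (F (Nat.pair n.unpair.1 u))
          (fun y IH => IH.bind (fun i =>
          G (Nat.pair (Nat.pair n.unpair.1 (Nat.pair y i)) u))) n.unpair.2 : Part ℕ) by
        obtain ⟨k0, hk0⟩ := hs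
        refine ⟨k0, fun u hu hk => ?_⟩
        beta_reduce
        rw [a1_pair, a2_pair]
        exact hk0 u hu hk
      generalize n.unpair.2 = t at h ⊢
      generalize n.unpair.1 = s at h ⊢
      induction t generalizing m with
      | zero => exact F3 _ _ h
      | succ t ih =>
        obtain ⟨i, hi, h⟩ := bind_chain.1 h
        obtain ⟨k, hk⟩ := ih i hi
        obtain ⟨l, hl⟩ := G3 _ _ h
        refine ⟨max k l, fun u hu hk' => ?_⟩
        exact Part.mem_bind_iff.2 ⟨i, hk u hu (le_trans (le_max_left _ _) hk'),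
          hl u hu (le_trans (le_max_right _ _) hk')⟩
  | @rfind f hf ihf =>
    obtain ⟨F, F1, F2, F3⟩ := ihf
    refine ⟨fun N => Nat.rfind (fun n => (F (Nat.pair (Nat.pair (a1 N) n) (a2 N))).map
      (fun m => (m == 0))), ?_, ?_, ?_⟩
    · refine Partrec.rfind (p := fun N n => (F (Nat.pair (Nat.pair (a1 N) n) (a2 N))).map
        (fun m => (m == 0))) ?_
      refine Partrec.map (f := fun p : ℕ × ℕ => F (Nat.pair (Nat.pair (a1 p.1) p.2) (a2 p.1)))
        (g := fun (_ : ℕ × ℕ) (m : ℕ) => (m == 0)) (F1.comp (kpair (kpair (k1.comp Computable.fst)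
        Computable.snd) (k2.comp Computable.fst))) ?_
      exact (eqc Computable.snd (Computable.const 0)).to₂
    · intro n u m hu h
      have h' := Nat.mem_rfind.1 h
      simp only [a1_pair, a2_pair] at h'
      apply Nat.mem_rfind.2
      constructor
      · obtain ⟨x, hx, hx0⟩ := (Part.mem_map_iff _).1 h'.1
        refine (Part.mem_map_iff _).2 ⟨x, F2 _ _ _ hu hx, ?_⟩
        simpa using hx0
      · intro i hi
        obtain ⟨x, hx, hx0⟩ := (Part.mem_map_iff _).1 (h'.2 hi)
        refine (Part.mem_map_iff _).2 ⟨x, F2 _ _ _ hu hx, ?_⟩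
        simpa using hx0
    · intro n m h
      have h' := Nat.mem_rfind.1 h
      have h1 : ∀ i, i ≤ m → ∃ x ∈ f (Nat.pair n i), (i = m → x = 0) ∧ (i < m → x ≠ 0) := by
        intro i hi
        rcases Nat.eq_or_lt_of_le hi with rfl | hlt
        · obtain ⟨x, hx, hx0⟩ := (Part.mem_map_iff _).1 h'.1
          exact ⟨x, hx, fun _ => by simpa using hx0, fun h => absurd h (lt_irrefl _)⟩
        · obtain ⟨x, hx, hx0⟩ := (Part.mem_map_iff _).1 (h'.2 hlt)
          exact ⟨x, hx, fun h => by omega, fun _ => by simpa using hx0⟩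
      have h2 : ∃ k0, ∀ i, i ≤ m → ∃ x, ((i = m → x = 0) ∧ (i < m → x ≠ 0)) ∧
          ∀ u, Agree X u → k0 ≤ a1 u → x ∈ F (Nat.pair (Nat.pair n i) u) := by
        have : ∀ i, ∃ k x, i ≤ m → ((i = m → x = 0) ∧ (i < m → x ≠ 0)) ∧
            ∀ u, Agree X u → k ≤ a1 u → x ∈ F (Nat.pair (Nat.pair n i) u) := by
          intro i
          by_cases hi : i ≤ m
          · obtain ⟨x, hx, hx'⟩ := h1 i hi
            obtain ⟨k, hk⟩ := F3 _ _ hx
            exact ⟨k, x, fun _ => ⟨hx', hk⟩⟩
          · exact ⟨0, 0, fun h => absurd h hi⟩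
        choose k x hkx using this
        refine ⟨(Finset.range (m + 1)).sup k, fun i hi => ⟨x i, (hkx i hi).1, fun u hu hk => ?_⟩⟩
        exact (hkx i hi).2 u hu (le_trans (Finset.le_sup (f := k)
          (Finset.mem_range.2 (by omega))) hk)
      obtain ⟨k0, hk0⟩ := h2
      refine ⟨k0, fun u hu hk => ?_⟩
      apply Nat.mem_rfind.2
      simp only [a1_pair, a2_pair]
      constructor
      · obtain ⟨x, hx, hx2⟩ := hk0 m (le_refl m)
        refine (Part.mem_map_iff _).2 ⟨x, hx2 u hu hk, ?_⟩
        simpa using hx.1 rfl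
      · intro i hi
        obtain ⟨x, hx, hx2⟩ := hk0 i (le_of_lt hi)
        refine (Part.mem_map_iff _).2 ⟨x, hx2 u hu hk, ?_⟩
        simpa using hx.2 hi

theorem exists_agree (X : Set ℕ) (k : ℕ) : ∃ u, Agree X u ∧ a1 u = k := by
  obtain ⟨w, hw⟩ := exists_bits (fun i => i ∈ X) k
  refine ⟨Nat.pair k w, fun i hi => ?_, a1_pair _ _⟩
  rw [Nat.unpair_pair] at hi ⊢
  rw [hw i]
  exact ⟨fun h => h.2, fun h => ⟨hi, h⟩⟩

/-- a set Turing reducible to `X` is enumerated from `X` -/
theorem ce_of_reducible {X Y : Set ℕ} (h : TuringReducible (chi Y) (chi X)) :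
    ∃ e, ∀ n, n ∈ Y ↔ ∃ u, Agree X u ∧ (phi e (Nat.pair n u)).Dom := by
  obtain ⟨F, F1, F2, F3⟩ := functional X (RecursiveIn.iff_nat.1 h)
  have hG : Partrec (fun N => (F N).bind (fun x => bif (x == 1) then Part.some 0 else Part.none)) := by
    refine Partrec.bind F1 ?_
    exact (Partrec.cond (eqc Computable.snd (Computable.const 1)) (Computable.const 0).partrec
      Partrec.none).to₂
  obtain ⟨c, hc⟩ := Code.exists_code.1 (Partrec.nat_iff.1 hG)
  refine ⟨Encodable.encode c, fun n => ?_⟩
  have hphi : ∀ N, (phi (Encodable.encode c) N) =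
      (F N).bind (fun x => bif (x == 1) then Part.some 0 else Part.none) := by
    intro N
    rw [phi, Denumerable.ofNat_encode, hc]
  constructor
  · intro hn
    have h1 : 1 ∈ chi Y n := by
      rw [chi, if_pos hn]
      exact Part.mem_some _
    obtain ⟨k, hk⟩ := F3 _ _ h1
    obtain ⟨u, hu, hu'⟩ := exists_agree X k
    refine ⟨u, hu, ?_⟩
    rw [hphi, Part.dom_iff_mem]
    refine ⟨0, Part.mem_bind_iff.2 ⟨1, hk u hu (le_of_eq hu'.symm), ?_⟩⟩
    exact Part.mem_some _
  · rintro ⟨u, hu, hd⟩
    rw [hphi, Part.dom_iff_mem] at hd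
    obtain ⟨y, hy⟩ := hd
    obtain ⟨x, hx, hy⟩ := Part.mem_bind_iff.1 hy
    have hx1 : x = 1 := by
      by_contra hne
      have : (x == 1) = false := by simpa using hne
      rw [this, cond_false] at hy
      exact Part.notMem_none _ hy
    subst hx1
    have := F2 _ _ _ hu hx
    rw [chi, Part.mem_some_iff] at this
    by_contra hn
    rw [if_neg hn] at this
    exact absurd this (by norm_num)

/-- every hyperarithmetic equivalence relation is computably reducible to `id^{+a}` for some
notation `a` -/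
theorem hyp_reduces (E : ℕ → ℕ → Prop) (hE : Equivalence E)
    (hyp : Hyperarithmetic {z | E z.unpair.1 z.unpair.2}) :
    ∃ (a : ℕ) (p : Ntn a), CRed E (FS (fun n m => n = m) p) := by
  obtain ⟨a, p, hp⟩ := hyp
  obtain ⟨e, he⟩ := ce_of_reducible hp
  refine reduction p E hE e (fun n m => ?_)
  have := he (Nat.pair n m)
  rw [← this, Set.mem_ofPred_eq, Nat.unpair_pair]

/-- the iterate does not depend on the derivation of the notation -/
theorem FS_indep_aux (E : ℕ → ℕ → Prop) {a : ℕ} (p : Ntn a) :
    ∀ {b : ℕ} (q : Ntn b), a = b → FS E p = FS E q := by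
  induction p with
  | zero =>
    intro b q h
    cases q with
    | zero => rfl
    | @succ b q =>
      have := Nat.one_lt_two_pow (ntn_pos q).ne'
      omega
    | lim e f hf mono q =>
      have : 0 < 5 ^ e := by positivity
      omega
  | @succ a p ih =>
    intro b q h
    cases q with
    | zero =>
      have := Nat.one_lt_two_pow (ntn_pos p).ne'
      omega
    | @succ b q =>
      have hab : a = b := Nat.pow_right_injective (le_refl 2) h
      change FSJump (FS E p) = FSJump (FS E q)
      rw [ih q hab]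
    | lim e f hf mono q => exact absurd h (two_pow_ne _ _)
  | lim e f hf mono p ih =>
    intro b q h
    cases q with
    | zero =>
      have : 0 < 5 ^ e := by positivity
      omega
    | @succ b q => exact absurd h.symm (two_pow_ne _ _)
    | lim e' f' hf' mono' q =>
      have h2 : 5 ^ e = 5 ^ e' := by omega
      have := Nat.pow_right_injective (by norm_num : 2 ≤ 5) h2
      subst this
      have hff : ∀ n, f n = f' n := fun n => Part.mem_unique (hf n) (hf' n)
      funext z w
      change (z.unpair.1 = w.unpair.1 ∧ FS E (p z.unpair.1) z.unpair.2 w.unpair.2) =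
        (z.unpair.1 = w.unpair.1 ∧ FS E (q z.unpair.1) z.unpair.2 w.unpair.2)
      rw [ih z.unpair.1 (q z.unpair.1) (hff _)]

theorem FS_indep (E : ℕ → ℕ → Prop) (a : ℕ) (p q : Ntn a) : FS E p = FS E q :=
  FS_indep_aux E p q rfl

end Pool.Agent.R575.HY
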